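import Pool.Agent.L0h19.QE.Stm

set_option autoImplicit false

namespace Pool.Agent.L0h98.QE

open Finset Filter Topology Pool.Agent.L0h19.QE
open Pool.Agent.L0h87.LE (ee odds Inv MZ RHO HasOddDensity)

theorem sum_odds {E : Type*} [AddCommMonoid E] (F : ℕ → E) (N : ℕ) :
    ∑ n ∈ odds N, F n = ∑ j ∈ range ((N + 1) / 2), F (2 * j + 1) := by
  symm
  refine Finset.sum_nbij' (fun j => 2 * j + 1) (fun n => n / 2) ?_ ?_ ?_ ?_ ?_
  · intro j hj
    rw [mem_range] at hj
    unfold odds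
    rw [mem_filter, mem_Icc]
    omega
  · intro n hn
    unfold odds at hn
    rw [mem_filter, mem_Icc] at hn
    rw [mem_range]
    omega
  · intro j _
    omega
  · intro n hn
    unfold odds at hn
    rw [mem_filter, mem_Icc] at hn
    omega
  · intro j _
    rfl

theorem sum_blocks {E : Type*} [AddCommMonoid E] (F : ℕ → E) (M I : ℕ) :
    ∑ j ∈ range (M * I), F j = ∑ i ∈ range I, ∑ s ∈ range M, F (M * i + s) := by
  induction I with
  | zero => simp
  | succ I ih => rw [mul_add, mul_one, Finset.sum_range_add, ih, Finset.sum_range_succ]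

theorem t_BLK : S_BLK := by
  intro q f C hC hI a b hb M hM ε hε
  have hM0 : 0 < M := by rcases hM with rfl | rfl <;> positivity
  have hC0 : 0 ≤ C := (abs_nonneg _).trans (hC 0)
  choose! I0 hI0 using fun s (hs : s < M) => hI a b hb M hM s hs ε hε
  obtain ⟨N1, hN1⟩ := exists_nat_ge (2 * C * M / ε)
  refine ⟨max N1 (2 * M * (range M).sup I0), fun N hN φ hφ => ?_⟩
  obtain ⟨I, hIdef⟩ : ∃ I, I = N / (2 * M) := ⟨_, rfl⟩
  rw [← hIdef]
  have hsup : ∀ s < M, I0 s ≤ I := by
    intro s hs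
    have h1 : I0 s ≤ (range M).sup I0 := Finset.le_sup (mem_range.2 hs)
    have h2 : 2 * M * (range M).sup I0 ≤ N := (le_max_right _ _).trans hN
    rw [hIdef]
    refine h1.trans ((Nat.le_div_iff_mul_le (by positivity)).2 ?_)
    rw [mul_comm]
    exact h2
  have hMI : 2 * M * I ≤ N := by
    rw [hIdef]
    exact Nat.mul_div_le N (2 * M)
  have hMI2 : N < 2 * M * I + 2 * M := by
    rw [hIdef]
    have := Nat.lt_div_mul_add (a := N) (show 0 < 2 * M by positivity)
    rw [mul_comm (2 * M) (N / (2 * M))]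
    exact this
  obtain ⟨r, hr⟩ : ∃ r, (N + 1) / 2 = M * I + r := by
    refine Nat.exists_eq_add_of_le ?_
    have : 2 * (M * I) ≤ N := by rw [← mul_assoc]; exact hMI
    omega
  have hrM : r ≤ M := by
    have : N < 2 * (M * I) + 2 * M := by rw [← mul_assoc]; exact hMI2
    omega
  have e1 : ∑ n ∈ odds N, (f n : ℂ) * φ n -
      ∑ i ∈ range I, (f (2 * 2 ^ a * i + 1) : ℂ) * ∑ s ∈ range M, φ (2 * M * i + 2 * s + 1) =
      (∑ i ∈ range I, ∑ s ∈ range M, ((f (2 * M * i + 2 * s + 1) : ℂ) -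
        (f (2 * 2 ^ a * i + 1) : ℂ)) * φ (2 * M * i + 2 * s + 1)) +
      ∑ t ∈ range r, (f (2 * (M * I + t) + 1) : ℂ) * φ (2 * (M * I + t) + 1) := by
    rw [sum_odds, hr, Finset.sum_range_add, sum_blocks, add_sub_right_comm]
    congr 1
    rw [← Finset.sum_sub_distrib]
    refine Finset.sum_congr rfl fun i _ => ?_
    rw [Finset.mul_sum, ← Finset.sum_sub_distrib]
    refine Finset.sum_congr rfl fun s _ => ?_
    rw [show 2 * (M * i + s) + 1 = 2 * M * i + 2 * s + 1 by ring, sub_mul]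
  rw [e1]
  have hb1 : ‖∑ i ∈ range I, ∑ s ∈ range M, ((f (2 * M * i + 2 * s + 1) : ℂ) -
        (f (2 * 2 ^ a * i + 1) : ℂ)) * φ (2 * M * i + 2 * s + 1)‖ ≤ M * (ε * I) := by
    rw [Finset.sum_comm]
    refine (norm_sum_le _ _).trans ?_
    have h1 : ∀ s ∈ range M, ‖∑ i ∈ range I, ((f (2 * M * i + 2 * s + 1) : ℂ) -
        (f (2 * 2 ^ a * i + 1) : ℂ)) * φ (2 * M * i + 2 * s + 1)‖ ≤ ε * I := by
      intro s hs
      refine (norm_sum_le _ _).trans (le_trans (Finset.sum_le_sum fun i _ => ?_)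
        (hI0 s (mem_range.1 hs) I (hsup s (mem_range.1 hs))))
      rw [norm_mul, ← Complex.ofReal_sub, Complex.norm_real, Real.norm_eq_abs]
      exact mul_le_of_le_one_right (abs_nonneg _) (hφ _)
    refine (Finset.sum_le_sum h1).trans ?_
    rw [Finset.sum_const, card_range, nsmul_eq_mul]
  have hb2 : ‖∑ t ∈ range r, (f (2 * (M * I + t) + 1) : ℂ) * φ (2 * (M * I + t) + 1)‖ ≤ C * M := by
    refine (norm_sum_le _ _).trans ?_
    have h1 : ∀ t ∈ range r, ‖(f (2 * (M * I + t) + 1) : ℂ) * φ (2 * (M * I + t) + 1)‖ ≤ C := by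
      intro t _
      rw [norm_mul, Complex.norm_real, Real.norm_eq_abs]
      exact (mul_le_of_le_one_right (abs_nonneg _) (hφ _)).trans (hC _)
    refine (Finset.sum_le_sum h1).trans ?_
    rw [Finset.sum_const, card_range, nsmul_eq_mul, mul_comm]
    exact mul_le_mul_of_nonneg_left (by exact_mod_cast hrM) hC0
  have hb3 : (M : ℝ) * (ε * I) ≤ ε / 2 * N := by
    have h1 : (2 : ℝ) * M * I ≤ N := by exact_mod_cast hMI
    nlinarith
  have hb4 : C * M ≤ ε / 2 * N := by
    have h1 : (N1 : ℝ) ≤ N := by exact_mod_cast (le_max_left _ _).trans hN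
    have h2 : 2 * C * M / ε ≤ N := hN1.trans h1
    rw [div_le_iff₀ hε] at h2
    linarith
  calc _ ≤ (M : ℝ) * (ε * I) + C * M := (norm_add_le _ _).trans (add_le_add hb1 hb2)
    _ ≤ ε * N := by linarith

end Pool.Agent.L0h98.QE
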