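import Pool.Agent.L0h19.QE.Stm

set_option autoImplicit false

namespace Pool.Agent.L0h98.QE

open Finset Filter Topology Pool.Agent.L0h19.QE
open Pool.Agent.L0h87.LE (ee odds Inv MZ RHO HasOddDensity)

theorem t_SIX : S_SIX := by
  classical
  intro h N
  rcases Nat.eq_zero_or_pos N with rfl | hN
  · have : eqs 0 = ∅ := by
      apply Finset.eq_empty_of_forall_notMem
      intro p hp
      unfold eqs at hp
      rw [mem_filter, mem_product, Fintype.mem_piFinset] at hp
      have := hp.1.1 0
      unfold odds at this
      rw [mem_filter, mem_Icc] at this
      omega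
    rw [this]
    simp
  · have h1 : (eqs N).card ≤ (uv (2 * N)).card := by
      refine Finset.card_le_card_of_injOn
        (fun p => ((fun i => (p.1 i : ℤ) - p.2 i), fun i => (p.1 i : ℤ) + p.2 i)) ?_ ?_
      · intro p hp
        have hp' : p ∈ eqs N := hp
        unfold eqs at hp'
        rw [mem_filter, mem_product, Fintype.mem_piFinset, Fintype.mem_piFinset] at hp'
        obtain ⟨⟨ha, hb⟩, hs⟩ := hp'
        have ha' : ∀ i, 1 ≤ p.1 i ∧ p.1 i ≤ N := by
          intro i
          have := ha i
          unfold odds at this
          rw [mem_filter, mem_Icc] at this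
          exact this.1
        have hb' : ∀ i, 1 ≤ p.2 i ∧ p.2 i ≤ N := by
          intro i
          have := hb i
          unfold odds at this
          rw [mem_filter, mem_Icc] at this
          exact this.1
        show _ ∈ uv (2 * N)
        unfold uv
        rw [mem_filter, mem_product, Fintype.mem_piFinset, Fintype.mem_piFinset]
        refine ⟨⟨fun i => ?_, fun i => ?_⟩, ?_⟩
        · rw [mem_Icc]
          have h1 := ha' i
          have h2 := hb' i
          dsimp only
          push_cast
          constructor <;> omega
        · rw [mem_Icc]
          have h1 := ha' i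
          have h2 := hb' i
          dsimp only
          push_cast
          constructor <;> omega
        · dsimp only
          have : ∀ i, ((p.1 i : ℤ) - p.2 i) * ((p.1 i : ℤ) + p.2 i) =
              (p.1 i : ℤ) ^ 2 - (p.2 i : ℤ) ^ 2 := fun i => by ring
          simp only [this]
          rw [Finset.sum_sub_distrib, hs, sub_self]
      · intro p _ p' _ hpp
        have h1 : ∀ i, (p.1 i : ℤ) - p.2 i = p'.1 i - p'.2 i := fun i =>
          congrFun (congrArg Prod.fst hpp) i
        have h2 : ∀ i, (p.1 i : ℤ) + p.2 i = p'.1 i + p'.2 i := fun i =>
          congrFun (congrArg Prod.snd hpp) i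
        refine Prod.ext (funext fun i => ?_) (funext fun i => ?_)
        · have := h1 i
          have := h2 i
          omega
        · have := h1 i
          have := h2 i
          omega
    have h2 := h (2 * N) (by omega)
    have h3 : ((eqs N).card : ℝ) ≤ (uv (2 * N)).card := by exact_mod_cast h1
    refine h3.trans (h2.trans (le_of_eq ?_))
    push_cast
    ring

end Pool.Agent.L0h98.QE
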